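import Pool.Agent.U280.OD.Stm

/-!
# Project OD, package B: the Bessel inequality with the factor `1/2`

Co-authors: helper280 (project, statement), helper643 (this package).
-/

set_option autoImplicit false

open MeasureTheory Set Filter Topology

namespace Pool.Agent.U643.OD

open Pool.Agent.U280.OD

lemma G_cont {d : ℕ} (s : ℝ) (x : E d) : Continuous fun y => G s (x - y) := by
  unfold G
  fun_prop

lemma G_nonneg {d : ℕ} {s : ℝ} (hs : 0 < s) (y : E d) : 0 ≤ G s y := by
  unfold G
  positivity

lemma G_sq {d : ℕ} {s : ℝ} (hs : 0 < s) (y : E d) : G s y ^ 2 =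
    (4 * Real.pi * s) ^ (-(d : ℝ)) * Real.exp (-(1 / (2 * s)) * ‖y‖ ^ 2) := by
  unfold G
  rw [mul_pow, ← Real.rpow_natCast, ← Real.rpow_mul (by positivity), ← Real.exp_nat_mul]
  congr 2
  · push_cast
    ring
  · push_cast
    field_simp
    ring

lemma G_sq_int {d : ℕ} {s : ℝ} (hs : 0 < s) : Integrable fun y : E d => G s y ^ 2 := by
  simp_rw [G_sq hs]
  refine Integrable.const_mul ?_ _
  have h := GaussianFourier.integrable_cexp_neg_mul_sq_norm_add (V := E d)
    (b := ((1 / (2 * s) : ℝ) : ℂ)) (by rw [Complex.ofReal_re]; positivity) 0 0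
  refine h.re.congr (Filter.Eventually.of_forall fun y => ?_)
  have e : Complex.exp (-((1 / (2 * s) : ℝ) : ℂ) * (‖y‖ : ℂ) ^ 2 +
      0 * ((inner ℝ (0 : E d) y : ℝ) : ℂ)) =
      ((Real.exp (-(1 / (2 * s)) * ‖y‖ ^ 2) : ℝ) : ℂ) := by
    rw [Complex.ofReal_exp, zero_mul, add_zero]
    congr 1
    push_cast
    ring
  show (Complex.exp (-((1 / (2 * s) : ℝ) : ℂ) * (‖y‖ : ℂ) ^ 2 +
      0 * ((inner ℝ (0 : E d) y : ℝ) : ℂ))).re = _
  rw [e, Complex.ofReal_re]

lemma G_sq_integral {d : ℕ} {s : ℝ} (hs : 0 < s) : ∫ y : E d, G s y ^ 2 =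
    (8 * Real.pi * s) ^ (-(d : ℝ) / 2) := by
  simp_rw [G_sq hs]
  rw [integral_const_mul, GaussianFourier.integral_rexp_neg_mul_sq_norm (by positivity)]
  rw [finrank_euclideanSpace, Fintype.card_fin]
  have hp := Real.pi_pos
  have e1 : Real.pi / (1 / (2 * s)) = 2 * Real.pi * s := by
    field_simp
  rw [e1]
  have e2 : (4 * Real.pi * s) ^ (-(d : ℝ)) = ((4 * Real.pi * s) ^ 2) ^ (-(d : ℝ) / 2) := by
    rw [← Real.rpow_natCast (4 * Real.pi * s) 2, ← Real.rpow_mul (by positivity)]
    congr 1
    push_cast
    ring
  have e3 : (2 * Real.pi * s) ^ ((d : ℝ) / 2) = ((2 * Real.pi * s)⁻¹) ^ (-(d : ℝ) / 2) := by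
    rw [Real.inv_rpow (by positivity), ← Real.rpow_neg (by positivity)]
    congr 1
    ring
  rw [e2, e3, ← Real.mul_rpow (by positivity) (by positivity)]
  congr 1
  field_simp
  ring

/-- Package B of project OD. -/
theorem t_B : S_B := by
  intro d N u hc hsu ho hV s hs x
  set k : E d → ℝ := fun y => G s (x - y) with hk
  have hkc : Continuous k := G_cont s x
  have hk0 : ∀ y, 0 ≤ k y := fun y => G_nonneg hs _
  have hk2 : Integrable fun y => k y ^ 2 := (G_sq_int hs).comp_sub_left x
  have hk2' : ∫ y, k y ^ 2 = (8 * Real.pi * s) ^ (-(d : ℝ) / 2) := by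
    rw [← G_sq_integral hs]
    exact integral_sub_left_eq_self (fun y : E d => G s y ^ 2) volume x
  set c : Fin N → ℂ := fun n => ∫ y, ((k y : ℝ) : ℂ) * u n y with hcdef
  set w : E d → ℂ := fun y => ∑ n, star (c n) * u n y with hw
  have hwc : Continuous w := by
    rw [hw]
    exact continuous_finsetSum _ fun n _ => continuous_const.mul (hc n)
  have hws : HasCompactSupport w := by
    have h : ∀ T : Finset (Fin N), HasCompactSupport fun y => ∑ n ∈ T, star (c n) * u n y := by
      intro T
      induction T using Finset.induction_on with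
      | empty =>
        simp only [Finset.sum_empty]
        exact HasCompactSupport.zero
      | insert a T ha ih =>
        simp only [Finset.sum_insert ha]
        exact (hsu a).mul_left.add ih
    exact h Finset.univ
  set S : ℝ := ∑ n, ‖c n‖ ^ 2 with hS
  have hcc : ∑ n, star (c n) * c n = (S : ℂ) := by
    rw [hS]
    push_cast
    refine Finset.sum_congr rfl fun n _ => ?_
    exact Complex.conj_mul' (c n)
  have hkC : Continuous fun y => ((k y : ℝ) : ℂ) := Complex.continuous_ofReal.comp hkc
  -- the integral of k w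
  have h1 : ∫ y, ((k y : ℝ) : ℂ) * w y = (S : ℂ) := by
    rw [← hcc, hw]
    simp_rw [Finset.mul_sum]
    rw [integral_finsetSum]
    · refine Finset.sum_congr rfl fun n _ => ?_
      rw [hcdef, ← integral_const_mul]
      refine integral_congr_ae (Filter.Eventually.of_forall fun y => ?_)
      simp only
      ring
    · intro n _
      exact (hkC.mul (continuous_const.mul (hc n))).integrable_of_hasCompactSupport
        ((hsu n).mul_left.mul_left)
  -- the integral of |w|²
  have h2 : ∫ y, star (w y) * w y = (S : ℂ) := by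
    have e : ∀ y, star (w y) * w y = ∑ n, ∑ m, (c n * star (c m)) * (star (u n y) * u m y) := by
      intro y
      rw [hw]
      simp only [star_sum, star_mul', star_star, Finset.sum_mul, Finset.mul_sum]
      rw [Finset.sum_comm]
      refine Finset.sum_congr rfl fun n _ => Finset.sum_congr rfl fun m _ => ?_
      ring
    simp_rw [e]
    have hi : ∀ n m, Integrable fun y => (c n * star (c m)) * (star (u n y) * u m y) := by
      intro n m
      exact (continuous_const.mul ((continuous_star.comp (hc n)).mul
        (hc m))).integrable_of_hasCompactSupport ((hsu m).mul_left.mul_left)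
    rw [integral_finsetSum _ fun n _ => integrable_finsetSum _ fun m _ => hi n m]
    rw [← hcc]
    refine Finset.sum_congr rfl fun n _ => ?_
    rw [integral_finsetSum _ fun m _ => hi n m]
    simp_rw [integral_const_mul, ho]
    simp [mul_comm]
  -- real functions
  set r : E d → ℝ := fun y => (w y).re with hr
  set a : E d → ℝ := fun y => ‖w y‖ with ha
  have hrc : Continuous r := Complex.continuous_re.comp hwc
  have hac : Continuous a := hwc.norm
  have hrs : HasCompactSupport r := hws.comp_left Complex.zero_re
  have has : HasCompactSupport a := hws.norm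
  have ikr : Integrable fun y => k y * r y := (hkc.mul hrc).integrable_of_hasCompactSupport hrs.mul_left
  have ika : Integrable fun y => k y * a y := (hkc.mul hac).integrable_of_hasCompactSupport has.mul_left
  have iar : Integrable fun y => a y * r y := (hac.mul hrc).integrable_of_hasCompactSupport hrs.mul_left
  have iaa : Integrable fun y => a y * a y := (hac.mul hac).integrable_of_hasCompactSupport has.mul_left
  have j1 : ∫ y, k y * r y = S := by
    have hi : Integrable fun y => ((k y : ℝ) : ℂ) * w y :=
      (hkC.mul hwc).integrable_of_hasCompactSupport hws.mul_left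
    have := Complex.reCLM.integral_comp_comm hi
    rw [h1] at this
    simpa using this
  have j2 : ∫ y, a y * a y = S := by
    have hi : Integrable fun y => star (w y) * w y :=
      ((continuous_star.comp hwc).mul hwc).integrable_of_hasCompactSupport hws.mul_left
    have := Complex.reCLM.integral_comp_comm hi
    rw [h2] at this
    rw [show S = Complex.reCLM (S : ℂ) by simp, ← this]
    refine integral_congr_ae (Filter.Eventually.of_forall fun y => ?_)
    simp only
    have e : star (w y) * w y = ((‖w y‖ : ℂ)) ^ 2 := Complex.conj_mul' (w y)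
    rw [e, ← Complex.ofReal_pow, Complex.reCLM_apply, Complex.ofReal_re]
    ring
  have j3 : ∫ y, a y * r y = 0 := by
    have hi : Integrable fun y => ((a y : ℝ) : ℂ) * w y :=
      ((Complex.continuous_ofReal.comp hac).mul hwc).integrable_of_hasCompactSupport hws.mul_left
    have := Complex.reCLM.integral_comp_comm hi
    have h0 : ∫ y, ((a y : ℝ) : ℂ) * w y = 0 := hV fun n => star (c n)
    rw [h0] at this
    simpa using this
  have j4 : S ≤ ∫ y, k y * a y := by
    rw [← j1]
    refine integral_mono ikr ika fun y => ?_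
    exact mul_le_mul_of_nonneg_left (Complex.re_le_norm _) (hk0 y)
  have j5 : 0 ≤ ∫ y, (k y ^ 2 - 2 * (k y * a y) + 2 * (a y * a y) - 2 * (k y * r y) +
      2 * (a y * r y)) := by
    refine integral_nonneg fun y => ?_
    have h3 : r y ^ 2 ≤ a y ^ 2 := by
      rw [← sq_abs]
      exact pow_le_pow_left₀ (abs_nonneg _) (Complex.abs_re_le_norm _) 2
    show (0 : ℝ) ≤ k y ^ 2 - 2 * (k y * a y) + 2 * (a y * a y) - 2 * (k y * r y) + 2 * (a y * r y)
    nlinarith [sq_nonneg (k y - a y - r y)]
  have j6 : ∫ y, (k y ^ 2 - 2 * (k y * a y) + 2 * (a y * a y) - 2 * (k y * r y) +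
      2 * (a y * r y)) = (∫ y, k y ^ 2) - 2 * (∫ y, k y * a y) + 2 * S - 2 * S + 2 * 0 := by
    rw [integral_add, integral_sub, integral_add, integral_sub, integral_const_mul,
      integral_const_mul, integral_const_mul, integral_const_mul, j1, j2, j3]
    · exact hk2
    · exact ika.const_mul 2
    · exact hk2.sub (ika.const_mul 2)
    · exact iaa.const_mul 2
    · exact (hk2.sub (ika.const_mul 2)).add (iaa.const_mul 2)
    · exact ikr.const_mul 2
    · exact ((hk2.sub (ika.const_mul 2)).add (iaa.const_mul 2)).sub (ikr.const_mul 2)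
    · exact iar.const_mul 2
  rw [j6, hk2'] at j5
  show ∑ n, ‖c n‖ ^ 2 ≤ _
  rw [← hS]
  linarith

end Pool.Agent.U643.OD
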